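import Pool.Agent.U280.OL.Stm

/-!
# Project OL, package Q3: the inequality of Bessel
-/

set_option autoImplicit false

open MeasureTheory FourierTransform Set Filter Topology
open scoped ENNReal

namespace Pool.Agent.U346.OL

open Pool.Agent.U280.OD Pool.Agent.U280.OE Pool.Agent.U280.OL

lemma enorm_sq (z : ℂ) : ‖z‖ₑ ^ 2 = ENNReal.ofReal (‖z‖ ^ 2) := by
  rw [ENNReal.ofReal_pow (norm_nonneg z), ofReal_norm]

lemma nsq_supp {m : ℕ} {f : (Fin m → ℝ) → ℂ} (hf : HasCompactSupport f) :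
    HasCompactSupport (fun y => ‖f y‖ ^ 2) := by
  have h1 : HasCompactSupport (fun y => ‖f y‖) := hf.norm
  have h2 : (fun y => ‖f y‖ ^ 2) = (fun y => ‖f y‖ * ‖f y‖) := by
    funext y; ring
  rw [h2]
  exact HasCompactSupport.mul_left (f := fun y => ‖f y‖) (f' := fun y => ‖f y‖) h1

lemma nsq_int {m : ℕ} {f : (Fin m → ℝ) → ℂ} (hc : Continuous f) (hf : HasCompactSupport f) :
    Integrable (fun y => ‖f y‖ ^ 2) :=
  Continuous.integrable_of_hasCompactSupport (f := fun y => ‖f y‖ ^ 2) (by fun_prop) (nsq_supp hf)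

lemma phi_int {m M : ℕ} (v : Fin M → (Fin m → ℝ) → ℝ) (hc : ∀ i, Continuous (v i))
    (c : Fin M → ℂ) (f : (Fin m → ℝ) → ℂ) (hf : Continuous f) (hfs : HasCompactSupport f) :
    ∫ y, (starRingEnd ℂ) (∑ i, c i * (v i y : ℂ)) * f y =
      ∑ i, (starRingEnd ℂ) (c i) * ∫ y, (v i y : ℂ) * f y := by
  have h1 : ∀ i, Integrable (fun y => (v i y : ℂ) * f y) := fun i =>
    ((Complex.continuous_ofReal.comp (hc i)).mul hf).integrable_of_hasCompactSupport
      (hfs.mul_left)
  calc ∫ y, (starRingEnd ℂ) (∑ i, c i * (v i y : ℂ)) * f y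
      = ∫ y, ∑ i, (starRingEnd ℂ) (c i) * ((v i y : ℂ) * f y) := by
        congr 1
        funext y
        rw [map_sum, Finset.sum_mul]
        refine Finset.sum_congr rfl fun i _ => ?_
        rw [map_mul, Complex.conj_ofReal]; ring
    _ = ∑ i, ∫ y, (starRingEnd ℂ) (c i) * ((v i y : ℂ) * f y) :=
        integral_finsetSum _ fun i _ => (h1 i).const_mul _
    _ = _ := by
        refine Finset.sum_congr rfl fun i _ => ?_
        rw [integral_const_mul]

theorem t_Q3 : Q3 := by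
  intro m M v hvc hvs hvo hvn h hh hhs
  set c : Fin M → ℂ := fun i => ∫ y, ((v i y : ℝ) : ℂ) * h y with hcdef
  set φ : (Fin m → ℝ) → ℂ := fun y => ∑ i, c i * (v i y : ℂ) with hφ
  have hφc : Continuous φ := by
    refine continuous_finsetSum _ fun i _ => ?_
    exact continuous_const.mul (Complex.continuous_ofReal.comp (hvc i))
  have hvsC : ∀ i, HasCompactSupport (fun y => ((v i y : ℝ) : ℂ)) := fun i =>
    (hvs i).comp_left (g := fun t : ℝ => (t : ℂ)) (by simp)
  have hφs : HasCompactSupport φ := by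
    have : ∀ s : Finset (Fin M), HasCompactSupport (fun y => ∑ i ∈ s, c i * (v i y : ℂ)) := by
      intro s
      induction s using Finset.induction_on with
      | empty =>
        simp only [Finset.sum_empty]
        exact (HasCompactSupport.zero : HasCompactSupport (0 : (Fin m → ℝ) → ℂ))
      | insert a s ha ih =>
        simp only [Finset.sum_insert ha]
        exact ((hvsC a).mul_left (f := fun _ => c a)).add ih
    exact this Finset.univ
  -- the integrals
  have I1 : ∫ y, (starRingEnd ℂ) (φ y) * h y = ((∑ i, ‖c i‖ ^ 2 : ℝ) : ℂ) := by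
    rw [phi_int v hvc c h hh hhs]
    push_cast
    refine Finset.sum_congr rfl fun i _ => ?_
    rw [← Complex.conj_mul']
  have J : ∀ i, ∫ y, (v i y : ℂ) * φ y = c i * ((∫ y, v i y ^ 2 : ℝ) : ℂ) := by
    intro i
    have hint : ∀ j, Integrable (fun y => v i y * v j y) := fun j =>
      ((hvc i).mul (hvc j)).integrable_of_hasCompactSupport ((hvs i).mul_right)
    have hint' : ∀ j, Integrable (fun y => ((v i y * v j y : ℝ) : ℂ)) := fun j => (hint j).ofReal
    calc ∫ y, (v i y : ℂ) * φ y = ∫ y, ∑ j, c j * ((v i y * v j y : ℝ) : ℂ) := by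
          congr 1
          funext y
          rw [hφ]
          simp only
          rw [Finset.mul_sum]
          refine Finset.sum_congr rfl fun j _ => ?_
          push_cast; ring
      _ = ∑ j, ∫ y, c j * ((v i y * v j y : ℝ) : ℂ) :=
          integral_finsetSum _ fun j _ => (hint' j).const_mul _
      _ = ∑ j, c j * ((∫ y, v i y * v j y : ℝ) : ℂ) := by
          refine Finset.sum_congr rfl fun j _ => ?_
          rw [integral_const_mul, integral_complex_ofReal]
      _ = c i * ((∫ y, v i y * v i y : ℝ) : ℂ) := by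
          rw [Finset.sum_eq_single i]
          · intro j _ hj
            rw [hvo i j (Ne.symm hj)]; simp
          · intro hi; exact absurd (Finset.mem_univ i) hi
      _ = _ := by simp only [pow_two]
  have I2 : ∫ y, (starRingEnd ℂ) (φ y) * φ y =
      ((∑ i, ‖c i‖ ^ 2 * ∫ y, v i y ^ 2 : ℝ) : ℂ) := by
    rw [phi_int v hvc c φ hφc hφs]
    push_cast
    refine Finset.sum_congr rfl fun i _ => ?_
    rw [J i, ← mul_assoc, Complex.conj_mul']
  -- integrability
  have K1 : Integrable (fun y => ‖h y‖ ^ 2) := nsq_int hh hhs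
  have K2 : Integrable (fun y => ‖φ y‖ ^ 2) := nsq_int hφc hφs
  have K3 : Integrable (fun y => (starRingEnd ℂ) (φ y) * h y) :=
    ((Complex.continuous_conj.comp hφc).mul hh).integrable_of_hasCompactSupport hhs.mul_left
  have K4 : Integrable (fun y => ((starRingEnd ℂ) (φ y) * h y).re) := K3.re
  have R1 : ∫ y, ((starRingEnd ℂ) (φ y) * h y).re = ∑ i, ‖c i‖ ^ 2 := by
    have := integral_re (𝕜 := ℂ) K3
    have h2 : ∫ y, ((starRingEnd ℂ) (φ y) * h y).re =
        (∫ y, (starRingEnd ℂ) (φ y) * h y).re := by simpa using this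
    rw [h2, I1, Complex.ofReal_re]
  have R2 : ∫ y, ‖φ y‖ ^ 2 = ∑ i, ‖c i‖ ^ 2 * ∫ y, v i y ^ 2 := by
    have h1 : ((∫ y, ‖φ y‖ ^ 2 : ℝ) : ℂ) = ∫ y, (starRingEnd ℂ) (φ y) * φ y := by
      rw [← integral_complex_ofReal]
      congr 1
      funext y
      rw [Complex.conj_mul']; push_cast; rfl
    rw [I2] at h1
    exact_mod_cast h1
  have hpt : ∀ y, ‖h y - φ y‖ ^ 2 =
      ‖h y‖ ^ 2 - 2 * ((starRingEnd ℂ) (φ y) * h y).re + ‖φ y‖ ^ 2 := by
    intro y
    rw [← Complex.normSq_eq_norm_sq, ← Complex.normSq_eq_norm_sq, ← Complex.normSq_eq_norm_sq,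
      Complex.normSq_sub]
    have : ((starRingEnd ℂ) (φ y) * h y).re = (h y * (starRingEnd ℂ) (φ y)).re := by
      rw [mul_comm]
    rw [this]; ring
  have hmain : 0 ≤ ∫ y, ‖h y - φ y‖ ^ 2 := integral_nonneg fun y => by positivity
  have hcalc : ∫ y, ‖h y - φ y‖ ^ 2 =
      (∫ y, ‖h y‖ ^ 2) - 2 * (∑ i, ‖c i‖ ^ 2) + ∑ i, ‖c i‖ ^ 2 * ∫ y, v i y ^ 2 := by
    have K5 : Integrable (fun y => ‖h y‖ ^ 2 - 2 * ((starRingEnd ℂ) (φ y) * h y).re) :=
      K1.sub (K4.const_mul 2)
    have K6 : Integrable (fun y => 2 * ((starRingEnd ℂ) (φ y) * h y).re) := K4.const_mul 2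
    simp only [hpt]
    rw [integral_add K5 K2, integral_sub K1 K6, integral_const_mul, R1, R2]
  have hle : ∑ i, ‖c i‖ ^ 2 * ∫ y, v i y ^ 2 ≤ ∑ i, ‖c i‖ ^ 2 := by
    refine Finset.sum_le_sum fun i _ => ?_
    calc ‖c i‖ ^ 2 * ∫ y, v i y ^ 2 ≤ ‖c i‖ ^ 2 * 1 :=
          mul_le_mul_of_nonneg_left (hvn i) (by positivity)
      _ = _ := mul_one _
  have hfin : ∑ i, ‖c i‖ ^ 2 ≤ ∫ y, ‖h y‖ ^ 2 := by linarith
  calc ∑ i, ‖∫ y, ((v i y : ℝ) : ℂ) * h y‖ₑ ^ 2 = ∑ i, ENNReal.ofReal (‖c i‖ ^ 2) := by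
        refine Finset.sum_congr rfl fun i _ => ?_
        rw [enorm_sq]
    _ = ENNReal.ofReal (∑ i, ‖c i‖ ^ 2) :=
        (ENNReal.ofReal_sum_of_nonneg fun i _ => by positivity).symm
    _ ≤ ENNReal.ofReal (∫ y, ‖h y‖ ^ 2) := ENNReal.ofReal_le_ofReal hfin
    _ = ∫⁻ y, ENNReal.ofReal (‖h y‖ ^ 2) :=
        ofReal_integral_eq_lintegral_ofReal K1 (Eventually.of_forall fun y => by positivity)
    _ = ∫⁻ y, ‖h y‖ₑ ^ 2 := by
        congr 1
        funext y
        rw [enorm_sq]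

end Pool.Agent.U346.OL
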